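import Pool.Agent.N586.KO.Tn4
import Pool.Agent.N586.GF.One
import Pool.Agent.N586.GF.Sum
import Pool.Agent.N586.GF.Smb
import Pool.Agent.N586.GF.Ord
import Pool.Agent.N586.GF.Qui
import Pool.Agent.N586.GF.Words

/-!
# Joint normality of `(π / x, √(2 x), (1 + √(1 + 4 x)) / 2, log (1 + x), e ^ x)` at almost all rational
# numbers `x`, up to `(log q) ^ (3 / 2 - ε)` digits

Let `F₁, …, F_r` be real analytic functions on an interval such that the Taylor coefficients of every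
nontrivial integral combination of them at the points of the interval are neither too large nor too
small. We show that for almost all rational numbers `x = a / q` of denominator `q` the digits of the
numbers `F₁(x), …, F_r(x)` are jointly equidistributed in all bases `b ≤ B`, in all windows between
`C log q` and `(log q) ^ (1 + δ)`, for every `δ < 1 / 2`; this holds in every interval of length at least
`q ^ (-1 / 5)`. The number of the digits is larger than every multiple of the size `log q` of `x`.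

An example are the functions `π / x`, `√(2 x)`, `(1 + √(1 + 4 x)) / 2`, `log (1 + x)`, `e ^ x`, whose
values at `x = 1` are `π`, `√2`, the golden ratio, `log 2` and `e`: for almost all rational numbers
`x = a / q` with `|x - 1| ≤ q ^ (-1 / 5)` their values at `x` are jointly normal up to
`(log q) ^ (1 + δ)` digits.

Proof. Second moment over `a`. The exponential sum of `e(θ F(a / q))`, `F = ∑ h_j F_j`, for
`θ = b ^ n - b ^ n'`, is treated by Vinogradov's method: the phase is expanded at `(a + y z) / q` in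
powers of `y z` for `y, z` up to `q ^ (39 / 100)`, and the coefficients have the right size up to small
powers of `q`. This gives a saving `exp (-(log q) ^ β)` for all `|θ| ≤ exp ((log q) ^ (1 + δ))`, if
`2 δ + β < 1`.
-/

set_option autoImplicit false

namespace Pool.Agent.Results.MP_7e9a3a_nt.AnalyticValuesAtRationals

/-- for every nontrivial integral combination `G = ∑ h j * F j` there are `C ≥ 1`, `A ≥ 0` and `k₀`
such that for all `x` in `[α, β]` the function `G (x + y)` is the sum of a power series `∑ c k * y ^ k`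
for `0 ≤ y < 1 / C`, with `|c k| ≤ C ^ (k + 1)` for all `k` and `|c k| ≥ exp (- A k ^ 2)` for all
`k ≥ k₀` -/
def Independent {r : ℕ} (α β : ℝ) (F : Fin r → ℝ → ℝ) : Prop :=
  ∀ h : Fin r → ℤ, h ≠ 0 → ∃ (C A : ℝ) (k₀ : ℕ), 1 ≤ C ∧ 0 ≤ A ∧ ∀ x : ℝ, α ≤ x → x ≤ β →
    ∃ c : ℕ → ℝ, (∀ k, |c k| ≤ C ^ (k + 1)) ∧
      (∀ k, k₀ ≤ k → Real.exp (-(A * (k : ℝ) ^ 2)) ≤ |c k|) ∧
      ∀ y : ℝ, 0 ≤ y → C * y < 1 → HasSum (fun k : ℕ => c k * y ^ k) (∑ j, (h j : ℝ) * F j (x + y))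

/-- the word of the `k` digits in base `b` of `y` which follow the first `n` digits after the point,
read as an integer between `0` and `b ^ k - 1` -/
noncomputable def word (b k n : ℕ) (y : ℝ) : ℕ :=
  ⌊(b : ℝ) ^ k * Int.fract ((b : ℝ) ^ n * y)⌋₊

/-- in every base `2 ≤ b ≤ B` every `r × k` digit matrix, `k ≥ 1` (row `j` is the word `D j` of `y j`),
occurs `N / b ^ (k r)` times, up to `ε N + E`, at the `N` places `s, …, s + N - 1`, for every window
with `L₀ ≤ s` and `s + N ≤ L` -/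
def NormalIn {r : ℕ} (B : ℕ) (L₀ L ε E : ℝ) (y : Fin r → ℝ) : Prop :=
  ∀ (b k s N : ℕ) (D : Fin r → ℕ), 2 ≤ b → b ≤ B → 1 ≤ k → (∀ j, D j < b ^ k) →
    L₀ ≤ s → (s : ℝ) + N ≤ L →
    |(({i : ℕ | i < N ∧ ∀ j, word b k (s + i) (y j) = D j}.ncard : ℕ) : ℝ) -
      N / ((b : ℝ) ^ k) ^ r| ≤ ε * N + E

/-- the functions `π / x`, `√(2 x)`, `(1 + √(1 + 4 x)) / 2`, `log (1 + x)` and `e ^ x`; their values at
`x = 1` are `π`, `√2`, the golden ratio `(1 + √5) / 2`, `log 2` and `e` -/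
noncomputable def quintuple : Fin 5 → ℝ → ℝ :=
  ![fun x => Real.pi / x, fun x => √(2 * x), fun x => (1 + √(1 + 4 * x)) / 2,
    fun x => Real.log (1 + x), Real.exp]

/-- Let `0 < δ < 1 / 2`, `ε > 0` and `B` be given. (1) For all large `q`, for all integers `a` with
`|a / q - 1| ≤ q ^ (-1 / 5)` except for at most `C q ^ (4 / 5) (log q) ^ (δ - 1)` of them, the values of
the five functions at `x = a / q` satisfy `NormalIn B (C log q) ((log q) ^ (1 + δ)) ε (ε log q)`.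
(2) Let `F₁, …, F_r`, `r ≥ 1`, be independent on `[α, β]`. There is `C` such that for all large `q` and
all `u, v` with `α ≤ u`, `v ≤ β`, `v - u ≥ q ^ (-1 / 5)`, for all integers `a` with `u ≤ a / q ≤ v`
except for at most `C (v - u) q (log q) ^ (δ - 1)` of them, the numbers `F₁(a / q), …, F_r(a / q)`
satisfy `NormalIn B (C log q) ((log q) ^ (1 + δ)) ε (ε log q)`. (3) The five functions are independent
on `[α, β]` if `0 < α < β`. -/
theorem result (δ ε : ℝ) (B : ℕ) (hδ : 0 < δ) (hδ2 : δ < 1 / 2) (hε : 0 < ε) :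
    (∃ C : ℝ, 0 < C ∧ ∃ q₀ : ℕ, ∀ q : ℕ, q₀ ≤ q →
      (({a : ℤ | |(a : ℝ) / q - 1| ≤ (q : ℝ) ^ (-(1 / 5) : ℝ) ∧ ¬ NormalIn B (C * Real.log q)
        ((Real.log q) ^ (1 + δ)) ε (ε * Real.log q)
        (fun j => quintuple j ((a : ℝ) / q))}.ncard : ℕ) : ℝ) ≤
        C * (q : ℝ) ^ (4 / 5 : ℝ) * (Real.log q) ^ (δ - 1)) ∧
    (∀ (r : ℕ) (α β : ℝ) (F : Fin r → ℝ → ℝ), 1 ≤ r → Independent α β F →
      ∃ C : ℝ, 0 < C ∧ ∃ q₀ : ℕ, ∀ q : ℕ, q₀ ≤ q →
      ∀ u v : ℝ, α ≤ u → v ≤ β → (q : ℝ) ^ (-(1 / 5) : ℝ) ≤ v - u →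
      (({a : ℤ | u ≤ (a : ℝ) / q ∧ (a : ℝ) / q ≤ v ∧ ¬ NormalIn B (C * Real.log q)
        ((Real.log q) ^ (1 + δ)) ε (ε * Real.log q) (fun j => F j ((a : ℝ) / q))}.ncard : ℕ) : ℝ) ≤
        C * ((v - u) * q) * (Real.log q) ^ (δ - 1)) ∧
    ∀ α β : ℝ, 0 < α → α < β → Independent α β quintuple := by
  have hgen : ∀ (r : ℕ) (α β : ℝ) (F : Fin r → ℝ → ℝ), 1 ≤ r → Independent α β F →
      ∃ C : ℝ, 0 < C ∧ ∃ q₀ : ℕ, ∀ q : ℕ, q₀ ≤ q →
      ∀ u v : ℝ, α ≤ u → v ≤ β → (q : ℝ) ^ (-(1 / 5) : ℝ) ≤ v - u →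
      (({a : ℤ | u ≤ (a : ℝ) / q ∧ (a : ℝ) / q ≤ v ∧ ¬ NormalIn B (C * Real.log q)
        ((Real.log q) ^ (1 + δ)) ε (ε * Real.log q) (fun j => F j ((a : ℝ) / q))}.ncard : ℕ) : ℝ) ≤
        C * ((v - u) * q) * (Real.log q) ^ (δ - 1) := by
    intro r α β F hr hF
    obtain ⟨C, hC, q₀, h⟩ := Pool.Agent.N586.GF.gf_all
      (Pool.Agent.N586.GF.sum (Pool.Agent.N586.GF.one Pool.Agent.N586.KO.tn4))
      Pool.Agent.N586.GF.smb r hr α β F hF δ hδ hδ2 B ε hε
    refine ⟨C, hC, max q₀ 1, fun q hq u v hu hv huv => h q ((le_max_left _ _).trans hq) u v hu hv ?_⟩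
    have hq1 : 1 ≤ q := (le_max_right _ _).trans hq
    have hq0 : (0 : ℝ) < q := by exact_mod_cast hq1
    calc (q : ℝ) ^ (4 / 5 : ℝ) = (q : ℝ) ^ (-(1 / 5) : ℝ) * (q : ℝ) ^ (1 : ℝ) := by
          rw [← Real.rpow_add hq0]; norm_num
      _ = (q : ℝ) ^ (-(1 / 5) : ℝ) * q := by rw [Real.rpow_one]
      _ ≤ (v - u) * q := mul_le_mul_of_nonneg_right huv hq0.le
  have hq5 : ∀ α β : ℝ, 0 < α → α < β → Independent α β quintuple := fun α β hα hαβ =>
    Pool.Agent.N586.GF.ord 5 α β _ (Pool.Agent.N586.GF.qui α β hα hαβ)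
  refine ⟨?_, hgen, hq5⟩
  obtain ⟨C, hC, q₀, h⟩ := hgen 5 (1 / 2) 2 quintuple (by norm_num)
    (hq5 (1 / 2) 2 (by norm_num) (by norm_num))
  refine ⟨2 * C, by positivity, max q₀ 32, fun q hq => ?_⟩
  have hq1 : 32 ≤ q := (le_max_right _ _).trans hq
  have hqR : (32 : ℝ) ≤ q := by exact_mod_cast hq1
  have hq0 : (0 : ℝ) < q := by linarith
  have hlog : 0 ≤ Real.log q := Real.log_nonneg (by linarith)
  set η : ℝ := (q : ℝ) ^ (-(1 / 5) : ℝ) with hη
  have hη0 : 0 < η := by positivity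
  have hη2 : η ≤ 1 / 2 := by
    have h1 : (32 : ℝ) ^ (-(1 / 5) : ℝ) = 1 / 2 := by
      rw [show (32 : ℝ) = 2 ^ (5 : ℝ) by norm_num, ← Real.rpow_mul (by norm_num),
        show (5 : ℝ) * (-(1 / 5)) = -1 by norm_num, Real.rpow_neg_one]
      norm_num
    rw [← h1]
    exact Real.rpow_le_rpow_of_nonpos (by norm_num) hqR (by norm_num)
  have h2 := h q ((le_max_left _ _).trans hq) (1 - η) (1 + η) (by linarith) (by linarith)
    (by linarith)
  have h3 : (1 + η - (1 - η)) * (q : ℝ) = 2 * (q : ℝ) ^ (4 / 5 : ℝ) := by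
    have h4 : η * q = (q : ℝ) ^ (4 / 5 : ℝ) := by
      calc η * q = (q : ℝ) ^ (-(1 / 5) : ℝ) * (q : ℝ) ^ (1 : ℝ) := by rw [Real.rpow_one]
        _ = (q : ℝ) ^ (4 / 5 : ℝ) := by rw [← Real.rpow_add hq0]; norm_num
    linarith
  rw [h3] at h2
  refine le_trans (Nat.cast_le.2 (Set.ncard_le_ncard ?_ ?_)) (h2.trans (le_of_eq (by ring)))
  · rintro a ⟨h4, h5⟩
    rw [abs_le] at h4
    refine ⟨by linarith [h4.1], by linarith [h4.2], fun h6 => h5 ?_⟩
    intro b k s N D hb hbB hk hD hs hN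
    refine h6 b k s N D hb hbB hk hD (le_trans ?_ hs) hN
    nlinarith
  · refine (Set.finite_Icc ⌈(1 - η) * q⌉ ⌊(1 + η) * q⌋).subset ?_
    rintro a ⟨h4, h5, -⟩
    rw [le_div_iff₀ hq0] at h4
    rw [div_le_iff₀ hq0] at h5
    rw [Set.mem_Icc, Int.ceil_le, Int.le_floor]
    exact ⟨h4, h5⟩

end Pool.Agent.Results.MP_7e9a3a_nt.AnalyticValuesAtRationals
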