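import Mathlib
import Pool.Agent.H43R2.Cplx.EFinal2

set_option autoImplicit false

/-!
# At least `(3/2 - ε) n` different blocks of `n` digits of `e`, for infinitely many `n`

For every base `b ≥ 2` the upper limit of `p(n, ξ, b) / n`, where `p(n, ξ, b)` is the number of
different blocks of `n` digits in the base `b` expansion of `ξ`, is at least `3/2` for `ξ = e` and for
every real number `ξ` with irrationality exponent `2`; the lower limit is at least `5/4`.
-/

open Filter

namespace Pool.Agent.Results.MP_7e9a3a_nt.BlocksInfinitelyOften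

/-- The block complexity: the number of distinct blocks of `n` consecutive digits in the base `b`
expansion of the fractional part of `ξ`. -/
noncomputable def blockCount (b : ℕ) [NeZero b] (ξ : ℝ) (n : ℕ) : ℕ :=
  (Set.range fun i : ℕ => fun k : Fin n => Real.digits (Int.fract ξ) b (i + k)).ncard

/-- `ξ` has irrationality exponent `2` (and is irrational): for every `ε > 0` there is `c > 0` with
`|q ξ - m| ≥ c q ^ (-1 - ε)` for all integers `m` and `q ≥ 1`. -/
def ExponentTwo (ξ : ℝ) : Prop :=
  ∀ ε : ℝ, 0 < ε → ∃ c : ℝ, 0 < c ∧ ∀ q : ℕ, 1 ≤ q → ∀ m : ℤ,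
    c ≤ (q : ℝ) ^ (1 + ε) * |q * ξ - m|

/-- The number `e` has irrationality exponent `2`. For every `ξ` with this property and every base
`b ≥ 2` there are more than `c n` blocks of length `n`, for infinitely many `n` if `c < 3/2`, and for
all large `n` if `c < 5/4`. -/
theorem result : ExponentTwo (Real.exp 1) ∧ ∀ ξ : ℝ, ExponentTwo ξ → ∀ (b : ℕ) [NeZero b], 2 ≤ b →
    (∀ c : ℝ, c < 3 / 2 → ∃ᶠ n : ℕ in atTop, c * n < blockCount b ξ n) ∧
    (∀ c : ℝ, c < 5 / 4 → ∀ᶠ n : ℕ in atTop, c * n < blockCount b ξ n) :=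
  ⟨Pool.Agent.H43R2.Cplx.exp2_e, fun _ h b _ hb =>
    ⟨fun _ hc => Pool.Agent.H43R2.Cplx.limsup_of_exp2 h b hb hc,
      fun _ hc => Pool.Agent.H43R2.Cplx.liminf_of_exp2 h b hb hc⟩⟩

end Pool.Agent.Results.MP_7e9a3a_nt.BlocksInfinitelyOften
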