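import Pool.Agent.N324.Dig.Fin

/-!
# The distance between the digits of algebraically related real numbers and periodic words

`diffs b x y N` is the number of the first `N` places at which the base `b` expansions of `x` and
`y` differ.

Let `A` be an integer polynomial in several variables, `m` an integer coprime to the base `b` which
divides all coefficients of `A` except the constant one. If real numbers `x_i`, `y_i` (no other
condition, they may be transcendental) satisfy `A(x_1 - y_1, ..., x_n - y_n) = 0`, then the sum over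
the non-constant monomials of `A` of the products of the powers of `diffs b x_i y_i N + 1` is at
least `c N`, with a constant `c > 0` which depends only on `A`, `b` and a bound for the
`|x_i - y_i|`.

Proof. Let `f_i(z)` be the power series whose coefficients are the differences of the digits of `x_i`
and `y_i`. Then `A(f_1, ..., f_n)` vanishes at `1/b`, so it is `(1 - b z) h(z)` with integer
coefficients `h_n`; modulo `m` it is a constant, so no `h_n` is divisible by `m` and no `h_n` is zero.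
But `|h_n|` is small unless there are non-zero coefficients of `A(f_1, ..., f_n)` just behind the
place `n`.

For `y_i` rational this bounds the distance to periodic words; the numbers `x_i` may be `e`, `π` and
functions of them, for example `π` and `1 / π`. (For one algebraic number and one rational number
see also `MP_0308e6_nt/DistanceToRationals`, by helper503, found independently.)
-/

set_option autoImplicit false

namespace Pool.Agent.Results.MP_7e9a3a_nt.DistanceToPeriodicWords

/-- the `k`-th digit, `k ≥ 1`, of the fractional part of `x` in base `b` -/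
noncomputable def digit (b : ℕ) (x : ℝ) (k : ℕ) : ℤ :=
  ⌊x * (b : ℝ) ^ k⌋ - b * ⌊x * (b : ℝ) ^ (k - 1)⌋

/-- the number of places `1 ≤ k ≤ N` at which the base `b` expansions of `x` and `y` differ -/
noncomputable def diffs (b : ℕ) (x y : ℝ) (N : ℕ) : ℕ :=
  ((Finset.Icc 1 N).filter (fun k => digit b x k ≠ digit b y k)).card

theorem diffs_eq (b : ℕ) (x y : ℝ) (N : ℕ) : diffs b x y N = Pool.Agent.N324.Dig.dist b x y N := by
  unfold diffs Pool.Agent.N324.Dig.dist
  congr 1
  refine Finset.filter_congr fun k hk => ?_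
  rw [Finset.mem_Icc] at hk
  unfold digit Pool.Agent.N324.Dig.dg
  rw [if_neg (by omega), if_neg (by omega)]

/-- Let `b ≥ 2`.

(1) Let `A` be an integer polynomial in finitely many variables and `m` an integer coprime to `b`
which divides all coefficients of `A` except the constant coefficient. For every `K` there is
`c > 0` such that for all real numbers `x_i, y_i` with `|x_i - y_i| ≤ K` and
`A(x_1 - y_1, ..., x_n - y_n) = 0` and all `N`: `c N` is at most the sum, over the exponents `α ≠ 0` of `A`,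
of the products of the `(diffs b x_i y_i N + 1) ^ α_i`.

(2) Let `p` be a prime which does not divide `b` but divides the denominators of the rational numbers
`ρ` and `τ`. For every real `u ≠ 0` (for example `e`, `π` or `√2`) there is `c > 0` such that for all real
`z₁, z₂` and all `N`: if `z₁ + u` and `z₁ + ρ`, `z₂ + 1 / u` and `z₂ + τ` differ at `e₁, e₂` of the first `N`
places, then `(e₁ + 1)(e₂ + 1) ≥ c N`.

(3) Let `ξ` be a real root of a monic integer polynomial of degree `D` and `ρ` a rational number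
whose base `b` expansion does not terminate. There is `c > 0` such that for all real `z` and all `N` the
expansions of `z + ξ` and `z + ρ` differ at `c N^(1/D) - 1` or more of the first `N` places.

(4) Let `p` be a prime which does not divide `b`, let `p` divide the denominators of the rational
numbers `ρ` and `τ`, and let `p²` not divide the denominator of the rational number `ζ`. For all real `u, v`
there is `c > 0` such that for all real `z₁, z₂, z₃` and all `N`: if `z₁ + u` and `z₁ + ρ`, `z₂ + v` and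
`z₂ + τ`, `z₃ + u v` and `z₃ + ζ` differ at `e₁, e₂, e₃` of the first `N` places, then
`(e₁ + 1)(e₂ + 1) + e₃ + 1 ≥ c N`.

(5) Let `p` be a prime which does not divide `b` but divides the denominator of the rational number
`ρ`, and let `p^k` not divide the denominator of the rational number `τ`. For every real `u` there is `c > 0` such
that for all real `z₁, z₂` and all `N`: if `z₁ + u` and `z₁ + ρ`, `z₂ + u^k` and `z₂ + τ` differ at
`e₁, e₂` of the first `N` places, then `(e₁ + 1)^k + e₂ + 1 ≥ c N`. -/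
theorem result (b : ℕ) (hb : 2 ≤ b) :
    (∀ (σ : Type) [Fintype σ] [DecidableEq σ] (m : ℤ) (A : MvPolynomial σ ℤ),
      IsCoprime m (b : ℤ) → ¬ m ∣ A.coeff 0 → (∀ α, α ≠ 0 → m ∣ A.coeff α) → ∀ K : ℝ,
      ∃ c : ℝ, 0 < c ∧ ∀ x y : σ → ℝ, (∀ i, |x i - y i| ≤ K) →
        MvPolynomial.aeval (fun i => x i - y i) A = 0 → ∀ N : ℕ,
        c * N ≤ ∑ α ∈ A.support.erase 0, ∏ i, ((diffs b (x i) (y i) N : ℝ) + 1) ^ α i) ∧
    (∀ p : ℕ, p.Prime → ¬ p ∣ b → ∀ ρ τ : ℚ, p ∣ ρ.den → p ∣ τ.den →
      ∀ u : ℝ, u ≠ 0 → ∃ c : ℝ, 0 < c ∧ ∀ z₁ z₂ : ℝ, ∀ N : ℕ,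
        c * (N : ℝ) ≤ ((diffs b (z₁ + u) (z₁ + ρ) N : ℝ) + 1) *
          ((diffs b (z₂ + 1 / u) (z₂ + τ) N : ℝ) + 1)) ∧
    (∀ P : Polynomial ℤ, P.Monic → ∀ ξ : ℝ, Polynomial.aeval ξ P = 0 → ∀ ρ : ℚ,
      (∀ (k : ℕ) (n : ℤ), ρ * (b : ℚ) ^ k ≠ n) →
      ∃ c : ℝ, 0 < c ∧ ∀ z : ℝ, ∀ N : ℕ,
        c * (N : ℝ) ^ (1 / (P.natDegree : ℝ)) ≤ (diffs b (z + ξ) (z + ρ) N : ℝ) + 1) ∧
    (∀ p : ℕ, p.Prime → ¬ p ∣ b → ∀ ρ τ ζ : ℚ, p ∣ ρ.den → p ∣ τ.den → ¬ p ^ 2 ∣ ζ.den →
      ∀ u v : ℝ, ∃ c : ℝ, 0 < c ∧ ∀ z₁ z₂ z₃ : ℝ, ∀ N : ℕ,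
        c * (N : ℝ) ≤ ((diffs b (z₁ + u) (z₁ + ρ) N : ℝ) + 1) *
          ((diffs b (z₂ + v) (z₂ + τ) N : ℝ) + 1) +
            ((diffs b (z₃ + u * v) (z₃ + ζ) N : ℝ) + 1)) ∧
    (∀ p : ℕ, p.Prime → ¬ p ∣ b → ∀ (k : ℕ) (ρ τ : ℚ), p ∣ ρ.den → ¬ p ^ k ∣ τ.den →
      ∀ u : ℝ, ∃ c : ℝ, 0 < c ∧ ∀ z₁ z₂ : ℝ, ∀ N : ℕ,
        c * (N : ℝ) ≤ ((diffs b (z₁ + u) (z₁ + ρ) N : ℝ) + 1) ^ k +
          ((diffs b (z₂ + u ^ k) (z₂ + τ) N : ℝ) + 1)) := by
  simp only [diffs_eq]
  exact ⟨fun σ _ _ m A hmb hA0 hA K => Pool.Agent.N324.Dig.general hb hmb A hA0 hA K,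
    fun p hp hpb ρ τ h1 h2 u hu => by
      obtain ⟨c, hc, h⟩ := Pool.Agent.N324.Dig.prod_rat hb hp hpb h1 h2
        (show ¬ p ^ 2 ∣ (1 : ℚ).den by
          rw [Rat.den_one, Nat.dvd_one]
          exact fun h => hp.one_lt.ne' (by
            rcases Nat.pow_eq_one.mp h with h | h
            · exact h
            · omega)) u (1 / u)
      refine ⟨c / 2, by positivity, fun z₁ z₂ N => ?_⟩
      have h3 := h z₁ z₂ 0 N
      have h4 : Pool.Agent.N324.Dig.dist b (0 + u * (1 / u)) (0 + ((1 : ℚ) : ℝ)) N = 0 := by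
        have h5 : (0 : ℝ) + u * (1 / u) = 0 + ((1 : ℚ) : ℝ) := by
          rw [mul_one_div_cancel hu, Rat.cast_one]
        rw [h5]
        unfold Pool.Agent.N324.Dig.dist
        simp
      rw [h4] at h3
      have h6 : (1 : ℝ) ≤ ((Pool.Agent.N324.Dig.dist b (z₁ + u) (z₁ + ρ) N : ℝ) + 1) *
          ((Pool.Agent.N324.Dig.dist b (z₂ + 1 / u) (z₂ + τ) N : ℝ) + 1) := by
        have h7 : (0 : ℝ) ≤ (Pool.Agent.N324.Dig.dist b (z₁ + u) (z₁ + ρ) N : ℝ) := by positivity
        have h8 : (0 : ℝ) ≤ (Pool.Agent.N324.Dig.dist b (z₂ + 1 / u) (z₂ + τ) N : ℝ) := by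
          positivity
        nlinarith
      push_cast at h3
      linarith,
    fun P hP ξ hξ ρ h => Pool.Agent.N324.Dig.alg_int_rat hb hP hξ ρ h,
    fun p hp hpb ρ τ ζ h1 h2 h3 u v => Pool.Agent.N324.Dig.prod_rat hb hp hpb h1 h2 h3 u v,
    fun p hp hpb k ρ τ h1 h2 u => Pool.Agent.N324.Dig.pow_rat hb hp hpb h1 h2 u⟩

end Pool.Agent.Results.MP_7e9a3a_nt.DistanceToPeriodicWords
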