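import Pool.Agent.N736.RR.Sharp

/-! # A number is normal if and only if its repetitions at sparse distances are rare

Let `b ≥ 2` and let `x` be a real number with the digits `d_1 d_2 …` behind the point in base `b`. A
repetition of length `k` at the distance `r` is a place `i` such that the same word of length `k` stands
at `i` and at `i + r`; in a normal number the repetitions of length `k` have the density `b ^ (-k)` at
every distance `r ≥ 1`. We prove that upper bounds which are weaker than this by a factor `b ^ (η k)`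
imply normality, and that it suffices to know them for the distances `r` in a sparse set `T - T`, where
`T` is any fixed infinite set of integers (for example the powers of `2`), for infinitely many `k`. The
words of a repetition do not matter.

A repetition at the distance `r` is a run of zeros or of digits `b - 1` in the multiple `(b ^ r - 1) x`,
and it is an approximation of `x` by a rational number with the denominator `b ^ n (b ^ r - 1)`. So
normality in base `b` is a property of the approximations of `x` by these rational numbers with an error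
of `b ^ (-k)` over the denominator, where `k` is fixed: they must not occur with a density greater than
`b ^ (-(1 - η) k)`. (The known transcendence criteria deal with approximations for which `k` is
proportional to `n`.)

The hypothesis is needed in the mean over the pairs `t < t'` of a finite set `T` with at least `b ^ k`
elements only, and at one stage `N` only. It is not sufficient to know it for the distances which are
not divisible by a fixed number `P`, in particular for finitely many distances.

Proof. For a set `B` of words of length `k` count the triples `n, t, t'` such that the same word of `B`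
stands at the places `n + t` and `n + t'`; by Cauchy's inequality they are many if `B` is small and
frequent. The same with the weights `exp (λ S)`, where `S` is the number of occurrences of a word `v` in
a word of length `k`, gives the result with `b ^ (-(1 - η) k)`. -/

set_option autoImplicit false

open Filter Topology

namespace Pool.Agent.Results.MP_7e9a3a_nt.RareRepetitions

/-- the `i`-th digit of `x` behind the point in base `b` -/
noncomputable def digit (b : ℕ) (x : ℝ) (i : ℕ) : ℤ := ⌊x * (b : ℝ) ^ i⌋ % (b : ℤ)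

/-- the number of `1 ≤ i ≤ N` with `d_i d_(i+1) … d_(i+k-1) = w_0 w_1 … w_(k-1)`, for the digits `d_i`
of `x` in base `b` -/
noncomputable def count (b : ℕ) (x : ℝ) (k : ℕ) (w : ℕ → ℤ) (N : ℕ) : ℕ :=
  ((Finset.Icc 1 N).filter fun i => ∀ j < k, digit b x (i + j) = w j).card

/-- `w_0 … w_(k-1)` is a word over the digits `0, …, b - 1` -/
def IsWord (b k : ℕ) (w : ℕ → ℤ) : Prop := ∀ j < k, 0 ≤ w j ∧ w j < b

/-- `x` is normal in base `b`: every word of length `k ≥ 1` has the frequency `b ^ (-k)` -/
def Normal (b : ℕ) (x : ℝ) : Prop := ∀ k : ℕ, 1 ≤ k → ∀ w : ℕ → ℤ, IsWord b k w →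
  Tendsto (fun N : ℕ => (count b x k w N : ℝ) / (N : ℝ)) atTop (𝓝 (1 / (b : ℝ) ^ k))

/-- the number of `1 ≤ i ≤ N` such that the same word of length `k` stands at the places `i` and `i + r`
of `x`: `d_(i+j) = d_(i+r+j)` for all `0 ≤ j < k` -/
noncomputable def rep (b : ℕ) (x : ℝ) (r k N : ℕ) : ℕ :=
  ((Finset.Icc 1 N).filter fun i => ∀ j < k, digit b x (i + j) = digit b x (i + r + j)).card

/-- the number of `0 ≤ n < N` for which there is an integer `p` with
`|x - p / (b ^ n (b ^ r - 1))| < b ^ (-k) / (b ^ n (b ^ r - 1))` -/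
noncomputable def near (b : ℕ) (x : ℝ) (r k N : ℕ) : ℕ := by
  classical
  exact ((Finset.range N).filter fun n => ∃ p : ℤ,
    |x - p / ((b : ℝ) ^ n * ((b : ℝ) ^ r - 1))| < 1 / ((b : ℝ) ^ (n + k) * ((b : ℝ) ^ r - 1))).card

/-- the number of `1 ≤ i ≤ N` for which the digits of `y` at the places `i, …, i + k - 1` are all `0` or
all `b - 1` -/
noncomputable def runs (b : ℕ) (y : ℝ) (k N : ℕ) : ℕ :=
  ((Finset.Icc 1 N).filter fun i => (∀ j < k, digit b y (i + j) = 0) ∨
    (∀ j < k, digit b y (i + j) = (b : ℤ) - 1)).card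

/-- the number of `1 ≤ i ≤ N` for which the word of length `k` at the place `i` belongs to `B` -/
noncomputable def hits (b : ℕ) (x : ℝ) {k : ℕ} (B : Finset (Fin k → ℤ)) (N : ℕ) : ℕ :=
  ((Finset.Icc 1 N).filter fun i => (fun j : Fin k => digit b x (i + j)) ∈ B).card

/-- the upper density is at most `ρ`: for every `δ > 0`, `s N ≤ (ρ + δ) N` for all large `N` -/
def UpperLe (s : ℕ → ℕ) (ρ : ℝ) : Prop :=
  ∀ δ : ℝ, 0 < δ → ∀ᶠ N : ℕ in atTop, (s N : ℝ) ≤ (ρ + δ) * N

/-- for every `η > 0` there are arbitrarily large `k` such that for all `t < t'` in `T` the upper density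
of `s (t' - t) k` is at most `b ^ (-(1 - η) k)` -/
def Rare (b : ℕ) (T : Set ℕ) (s : ℕ → ℕ → ℕ → ℕ) : Prop :=
  ∀ η : ℝ, 0 < η → ∀ K : ℕ, ∃ k : ℕ, K ≤ k ∧ ∀ t ∈ T, ∀ t' ∈ T, t < t' →
    UpperLe (s (t' - t) k) (1 / (b : ℝ) ^ ((1 - η) * (k : ℝ)))

/-- the number of distances `1 ≤ r < J` at which the repetitions of length `k` have an upper density
greater than `ρ` -/
noncomputable def exceptions (b : ℕ) (x : ℝ) (k : ℕ) (ρ : ℝ) (J : ℕ) : ℕ := by
  classical
  exact ((Finset.Ico 1 J).filter fun r => ¬ UpperLe (rep b x r k) ρ).card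

/-- Let `b ≥ 2`.
(1) Let `T` be any infinite set of natural numbers. A real number `x` is normal in base `b` if and only
if its repetitions are rare at the distances `t' - t`, `t < t'` in `T`; if and only if its approximations
with the denominators `b ^ n (b ^ (t' - t) - 1)` are rare; if and only if the runs of zeros and of digits
`b - 1` are rare in the multiples `(b ^ (t' - t) - 1) x`.
(2) `x` is normal in base `b` if and only if for all `η > 0` there are arbitrarily large `k` such that the
repetitions of length `k` have an upper density at most `b ^ (-(1 - η) k)` at almost all distances (all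
distances but a set of lower density zero).
(3) If `x` is not normal in base `b`, then there are `η > 0` and `K` such that for all `k ≥ K` and every
set `T` of at least `b ^ k` natural numbers there are `t < t'` in `T` for which the repetitions of length
`k` at the distance `t' - t` have an upper density at least `b ^ (-(1 - η) k)`. If `x` is normal, then
the repetitions of length `k` have the density `b ^ (-k)` at every distance `r ≥ 1`.
(4) The same at one stage: let `l ≥ 1`, `0 < ε ≤ 1`, `k ≥ 73 l / ε ^ 2`, and let `T` be a set of at least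
`b ^ k` natural numbers. For all `N ≥ N_0` (which depends on `b, l, ε, k, T`) and all real `x`: if in the
mean over the pairs `t < t'` of `T` at most `exp (ε ^ 2 k / (64 l)) b ^ (-k) N` of the places `i ≤ N` are
repetitions of length `k` at the distance `t' - t`, then every word of length `l` occurs `N / b ^ l` times
up to an error `ε N` in the first `N` places of `x`.
(5) If for an infinite set `T` and some `k` the repetitions of length `k` have an upper density at most
`ρ` at all distances `t' - t`, `t < t'` in `T`, then every set `B` of words of length `k` has an upper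
frequency at most `√(|B| ρ)` in `x`.
(6) For every `P ≥ 2` there is a rational number (so it is not normal) which has no repetitions at all of
a length `k ≥ P` at the distances which are not divisible by `P`. -/
theorem result (b : ℕ) (hb : 2 ≤ b) :
    (∀ (x : ℝ) (T : Set ℕ), T.Infinite →
      (Normal b x ↔ Rare b T (rep b x)) ∧ (Normal b x ↔ Rare b T (near b x)) ∧
      (Normal b x ↔ Rare b T (fun r => runs b (((b : ℝ) ^ r - 1) * x)))) ∧
    (∀ x : ℝ, Normal b x ↔ ∀ η : ℝ, 0 < η → ∀ K : ℕ, ∃ k : ℕ, K ≤ k ∧ ∀ δ : ℝ, 0 < δ →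
      ∃ᶠ J : ℕ in atTop, (exceptions b x k (1 / (b : ℝ) ^ ((1 - η) * (k : ℝ))) J : ℝ) ≤ δ * J) ∧
    ((∀ x : ℝ, ¬ Normal b x → ∃ η : ℝ, 0 < η ∧ ∃ K : ℕ, ∀ k : ℕ, K ≤ k → ∀ T : Finset ℕ,
      b ^ k ≤ T.card → ∃ t ∈ T, ∃ t' ∈ T, t < t' ∧ ∃ᶠ N : ℕ in atTop,
        (N : ℝ) / (b : ℝ) ^ ((1 - η) * (k : ℝ)) < rep b x (t' - t) k N) ∧
      (∀ x : ℝ, Normal b x → ∀ r : ℕ, 1 ≤ r → ∀ k : ℕ,
        Tendsto (fun N : ℕ => (rep b x r k N : ℝ) / N) atTop (𝓝 (1 / (b : ℝ) ^ k)))) ∧
    (∀ l : ℕ, 1 ≤ l → ∀ ε : ℝ, 0 < ε → ε ≤ 1 → ∀ k : ℕ, 73 * l / ε ^ 2 ≤ k →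
      ∀ T : Finset ℕ, b ^ k ≤ T.card → ∃ N0 : ℕ, ∀ (x : ℝ) (N : ℕ), N0 ≤ N →
        ((∑ t ∈ T, ∑ t' ∈ T.filter (fun t' => t < t'), rep b x (t' - t) k N : ℕ) : ℝ) ≤
          (T.card : ℝ) ^ 2 / 2 * (Real.exp (ε ^ 2 * (k : ℝ) / (64 * l)) / (b : ℝ) ^ k * N) →
        ∀ w : ℕ → ℤ, IsWord b l w → |(count b x l w N : ℝ) - N / (b : ℝ) ^ l| ≤ ε * N) ∧
    (∀ (x : ℝ) (T : Set ℕ), T.Infinite → ∀ (k : ℕ) (ρ : ℝ),
      (∀ t ∈ T, ∀ t' ∈ T, t < t' → UpperLe (rep b x (t' - t) k) ρ) →
      ∀ B : Finset (Fin k → ℤ), UpperLe (hits b x B) (Real.sqrt (B.card * ρ))) ∧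
    (∀ P : ℕ, 2 ≤ P → ∃ q : ℚ, ¬ Normal b (q : ℝ) ∧
      ∀ r k N : ℕ, ¬ P ∣ r → P ≤ k → rep b (q : ℝ) r k N = 0) := by
  refine ⟨fun x T hT => ?_, fun x => Pool.Agent.N736.RR.almostR b hb x,
    ⟨fun x h => Pool.Agent.N736.RR.dichotomyR b hb x h,
      fun x h r hr k => Pool.Agent.N736.RR.repR_of_normal b hb x h r hr k⟩,
    fun l hl ε hε hε1 k hk T hT => Pool.Agent.N736.RR.stageR b hb l hl ε hε hε1 k hk T hT,
    fun x T hT k ρ h B => Pool.Agent.N736.RR.hitsR_le b hb x T hT k ρ h B,
    fun P hP => Pool.Agent.N736.RR.sharp b P hb hP⟩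
  have H := Pool.Agent.N736.RR.tfae b hb x T hT
  exact ⟨H.out 0 1, H.out 0 2, H.out 0 3⟩

end Pool.Agent.Results.MP_7e9a3a_nt.RareRepetitions
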